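import Mathlib
import Pool.Agent.Q214.GC.Chain

/-!
At criticality (`λ₁ = 0`) the Gaussian consensus process diverges in every deterministic direction:
`|u · X_i(t)| → ∞` for all `i` and `|u · μ(t)| → ∞`, almost surely.
-/

set_option autoImplicit false

namespace Pool.Agent.Results.MP_21b2a2_pr.DirectionalDivergence

open MeasureTheory ProbabilityTheory Filter Topology Module
open scoped ENNReal RealInnerProductSpace NNReal Matrix

/-- The states: `N = n + 2` vectors of `ℝ^d` (the rows of the matrix `X`). -/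
abbrev State (n d : ℕ) := Fin (n + 2) → EuclideanSpace ℝ (Fin d)

/-- The mean `μ^X` of the rows. -/
noncomputable def mean {n d : ℕ} (x : State n d) : EuclideanSpace ℝ (Fin d) :=
  (1 / (n + 2) : ℝ) • ∑ i, x i

/-- The matrix `Cov^X`. -/
noncomputable def cov {n d : ℕ} (x : State n d) : Matrix (Fin d) (Fin d) ℝ :=
  fun k l => (1 / (n + 2) : ℝ) * ∑ i, (x i - mean x) k * (x i - mean x) l

/-- The transition law from the state `x`: the rows are independent, and the `i`-th row is Gaussian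
with mean `β x_i + (1 - β) μ^x` and covariance `ρ Cov^x`, where `ρ = α (1 - β)^2`. -/
noncomputable def trans {n d : ℕ} (α β : ℝ) (x : State n d) : Measure (State n d) :=
  Measure.pi fun i =>
    multivariateGaussian (β • x i + (1 - β) • mean x) ((α * (1 - β) ^ 2) • cov x)

/-- `X` is a Gaussian consensus process: for every `t` the conditional distribution of `X (t + 1)`
given `X 0, ..., X t` is `trans α β (X t)`. -/
def IsProcess {n d : ℕ} (α β : ℝ) {Ω : Type*} [MeasurableSpace Ω] (P : Measure Ω)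
    [IsFiniteMeasure P] (X : ℕ → Ω → State n d) : Prop :=
  (∀ t, Measurable (X t)) ∧ ∀ t, ∀ᵐ p ∂(P.map fun ω (s : Fin (t + 1)) => X s ω),
    condDistrib (X (t + 1)) (fun ω (s : Fin (t + 1)) => X s ω) P p = trans α β (p (Fin.last t))

/-- `λ₁ = E log |M e_1|` for the `(N - 1) × (N - 1)` matrix `M = (ρ / N)^(1/2) G + β I`, `N = n + 2`,
`ρ = α (1 - β)^2`: the first column of `G` is a standard Gaussian vector `g` of `ℝ^(N - 1)`. By the
rotation invariance of `G` this is the top Lyapunov exponent of the products of such matrices. -/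
noncomputable def lam1 (α β : ℝ) (n : ℕ) : ℝ :=
  ∫ g, Real.log ‖β • EuclideanSpace.single (0 : Fin (n + 1)) (1 : ℝ) +
    √(α * (1 - β) ^ 2 / (n + 2)) • g‖ ∂(stdGaussian (EuclideanSpace ℝ (Fin (n + 1))))

section proof

variable {n d : ℕ}

/-- the projection to a direction -/
noncomputable def prj (u : EuclideanSpace ℝ (Fin d)) (x : State n d) :
    EuclideanSpace ℝ (Fin (n + 2)) := WithLp.toLp 2 fun i => ⟪u, x i⟫

/-- the unit vector of the diagonal -/
noncomputable def ee (n : ℕ) : EuclideanSpace ℝ (Fin (n + 2)) :=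
  WithLp.toLp 2 fun _ => 1 / √((n : ℝ) + 2)

theorem norm_ee (n : ℕ) : ‖ee n‖ = 1 := by
  have h : (0 : ℝ) < (n : ℝ) + 2 := by positivity
  rw [EuclideanSpace.norm_eq, Real.sqrt_eq_one]
  unfold ee
  simp only [Real.norm_eq_abs, sq_abs, Finset.sum_const, Finset.card_univ, Fintype.card_fin,
    nsmul_eq_mul, div_pow, one_pow, Real.sq_sqrt h.le]
  push_cast
  field_simp

theorem inner_ee (y : EuclideanSpace ℝ (Fin (n + 2))) :
    ⟪ee n, y⟫ = (1 / √((n : ℝ) + 2)) * ∑ i, y i := by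
  rw [PiLp.inner_apply, Finset.mul_sum]
  refine Finset.sum_congr rfl fun i _ => ?_
  unfold ee
  simp only [RCLike.inner_apply, conj_trivial]
  ring

theorem inner_mean (u : EuclideanSpace ℝ (Fin d)) (x : State n d) :
    ⟪u, mean x⟫ = (1 / (n + 2) : ℝ) * ∑ i, ⟪u, x i⟫ := by
  unfold mean
  rw [inner_smul_right, inner_sum]

theorem prj_diag (u : EuclideanSpace ℝ (Fin d)) (x : State n d) (i : Fin (n + 2)) :
    (⟪ee n, prj u x⟫ • ee n) i = ⟪u, mean x⟫ := by
  have h : (0 : ℝ) < (n : ℝ) + 2 := by positivity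
  rw [inner_ee, inner_mean, PiLp.smul_apply, smul_eq_mul]
  have e1 : (ee n) i = 1 / √((n : ℝ) + 2) := rfl
  have e2 : ∑ i, (prj u x) i = ∑ i, ⟪u, x i⟫ := rfl
  rw [e1, e2]
  have e3 : 1 / √((n : ℝ) + 2) * (1 / √((n : ℝ) + 2)) = 1 / ((n : ℝ) + 2) := by
    rw [div_mul_div_comm, Real.mul_self_sqrt h.le, one_mul]
  calc (1 / √((n : ℝ) + 2) * ∑ i, ⟪u, x i⟫) * (1 / √((n : ℝ) + 2)) =
        (1 / √((n : ℝ) + 2) * (1 / √((n : ℝ) + 2))) * ∑ i, ⟪u, x i⟫ := by ring
    _ = _ := by rw [e3]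

theorem prj_bar (u : EuclideanSpace ℝ (Fin d)) (x : State n d) (i : Fin (n + 2)) :
    (Q214.GC.bar (ee n) (prj u x)) i = ⟪u, x i - mean x⟫ := by
  unfold Q214.GC.bar
  rw [PiLp.sub_apply, prj_diag, inner_sub_right]
  rfl

theorem quad (u : EuclideanSpace ℝ (Fin d)) (x : State n d) :
    (u : Fin d → ℝ) ⬝ᵥ cov x *ᵥ (u : Fin d → ℝ) =
      (1 / (n + 2) : ℝ) * ‖Q214.GC.bar (ee n) (prj u x)‖ ^ 2 := by
  have h1 : ‖Q214.GC.bar (ee n) (prj u x)‖ ^ 2 = ∑ i, ⟪u, x i - mean x⟫ ^ 2 := by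
    rw [EuclideanSpace.norm_sq_eq]
    refine Finset.sum_congr rfl fun i _ => ?_
    rw [prj_bar, Real.norm_eq_abs, sq_abs]
  rw [h1]
  have h2 : ∀ v : EuclideanSpace ℝ (Fin d), ⟪u, v⟫ = ∑ k, u k * v k := by
    intro v
    rw [PiLp.inner_apply]
    refine Finset.sum_congr rfl fun k _ => ?_
    simp only [RCLike.inner_apply, conj_trivial]
    ring
  simp only [h2]
  have lhs : (u : Fin d → ℝ) ⬝ᵥ cov x *ᵥ (u : Fin d → ℝ) = ∑ k, ∑ l, ∑ i : Fin (n + 2),
      (1 / (n + 2) : ℝ) * ((u k * (x i - mean x) k) * (u l * (x i - mean x) l)) := by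
    simp only [dotProduct, Matrix.mulVec, cov, Finset.mul_sum, Finset.sum_mul]
    exact Finset.sum_congr rfl fun k _ => Finset.sum_congr rfl fun l _ =>
      Finset.sum_congr rfl fun i _ => by ring
  have rhs : (1 / (n + 2) : ℝ) * ∑ i : Fin (n + 2), (∑ k, u k * (x i - mean x) k) ^ 2 =
      ∑ i : Fin (n + 2), ∑ k, ∑ l,
        (1 / (n + 2) : ℝ) * ((u k * (x i - mean x) k) * (u l * (x i - mean x) l)) := by
    rw [Finset.mul_sum]
    refine Finset.sum_congr rfl fun i _ => ?_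
    rw [sq, Finset.sum_mul_sum, Finset.mul_sum]
    exact Finset.sum_congr rfl fun k _ => Finset.mul_sum _ _ _
  rw [lhs, rhs]
  calc ∑ k, ∑ l, ∑ i : Fin (n + 2),
        (1 / (n + 2) : ℝ) * ((u k * (x i - mean x) k) * (u l * (x i - mean x) l)) =
        ∑ k, ∑ i : Fin (n + 2), ∑ l,
          (1 / (n + 2) : ℝ) * ((u k * (x i - mean x) k) * (u l * (x i - mean x) l)) :=
        Finset.sum_congr rfl fun k _ => Finset.sum_comm
    _ = _ := Finset.sum_comm

theorem cov_psd (x : State n d) {r : ℝ} (hr : 0 ≤ r) : (r • cov x).PosSemidef := by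
  have e : r • cov x = (r / (n + 2)) •
      ((Matrix.of fun i k => (x i - mean x) k : Matrix (Fin (n + 2)) (Fin d) ℝ)ᴴ *
        (Matrix.of fun i k => (x i - mean x) k : Matrix (Fin (n + 2)) (Fin d) ℝ)) := by
    ext k l
    rw [Matrix.smul_apply, Matrix.smul_apply, Matrix.mul_apply, cov, smul_eq_mul, smul_eq_mul,
      ← mul_assoc]
    congr 1
    ring
  rw [e]
  exact (Matrix.posSemidef_conjTranspose_mul_self _).smul (by positivity)

theorem mG_map {m : EuclideanSpace ℝ (Fin d)} {S : Matrix (Fin d) (Fin d) ℝ} (hS : S.PosSemidef)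
    (u : EuclideanSpace ℝ (Fin d)) {v : ℝ≥0}
    (hv : (v : ℝ) = (u : Fin d → ℝ) ⬝ᵥ S *ᵥ (u : Fin d → ℝ)) :
    (multivariateGaussian m S).map (fun z => ⟪u, z⟫) = gaussianReal ⟪u, m⟫ v := by
  apply Measure.ext_of_charFun
  ext s
  rw [charFun_apply, integral_map (by fun_prop) (by fun_prop)]
  have h1 : ∀ z : EuclideanSpace ℝ (Fin d), ⟪⟪u, z⟫, s⟫ = ⟪z, s • u⟫ := by
    intro z
    rw [inner_smul_right, real_inner_comm z u]
    simp only [RCLike.inner_apply, conj_trivial]
  simp_rw [h1]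
  rw [← charFun_apply, charFun_multivariateGaussian hS, charFun_gaussianReal]
  congr 1
  have h2 : ((s • u : EuclideanSpace ℝ (Fin d)) : Fin d → ℝ) ⬝ᵥ
      S *ᵥ ((s • u : EuclideanSpace ℝ (Fin d)) : Fin d → ℝ) = s ^ 2 * v := by
    rw [hv, WithLp.ofLp_smul, Matrix.mulVec_smul, smul_dotProduct, dotProduct_smul, smul_eq_mul,
      smul_eq_mul]
    ring
  rw [h2, inner_smul_left]
  simp only [conj_trivial]
  push_cast
  ring

/-- the law of the step in one dimension -/
theorem law_step (y : EuclideanSpace ℝ (Fin (n + 2))) (e : EuclideanSpace ℝ (Fin (n + 2)))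
    (β q : ℝ) {v : ℝ≥0} (hv : (v : ℝ) = (q * ‖Q214.GC.bar e y‖) ^ 2) :
    (stdGaussian (EuclideanSpace ℝ (Fin (n + 2)))).map (Q214.GC.TT e β q y) =
      (Measure.pi fun i => gaussianReal ((⟪e, y⟫ • e) i + β * (Q214.GC.bar e y) i) v).map
        (WithLp.toLp 2) := by
  have hT : Measurable (Q214.GC.TT e β q y) := by
    unfold Q214.GC.TT
    fun_prop
  rw [← map_pi_eq_stdGaussian, Measure.map_map hT (by fun_prop)]
  have e1 : Q214.GC.TT e β q y ∘ (WithLp.toLp 2 : (Fin (n + 2) → ℝ) → _) =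
      (WithLp.toLp 2) ∘ (fun (x : Fin (n + 2) → ℝ) i =>
        ((⟪e, y⟫ • e) i + β * (Q214.GC.bar e y) i) + (q * ‖Q214.GC.bar e y‖) * x i) := by
    funext x
    ext i
    simp only [Function.comp_apply, Q214.GC.TT, PiLp.add_apply, PiLp.smul_apply, smul_eq_mul]
  rw [e1, ← Measure.map_map (by fun_prop) (by fun_prop)]
  congr 1
  have e2 : ∀ i : Fin (n + 2), (gaussianReal 0 1).map (fun t : ℝ =>
      ((⟪e, y⟫ • e) i + β * (Q214.GC.bar e y) i) + (q * ‖Q214.GC.bar e y‖) * t) =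
      gaussianReal ((⟪e, y⟫ • e) i + β * (Q214.GC.bar e y) i) v := by
    intro i
    have e3 : (fun t : ℝ => ((⟪e, y⟫ • e) i + β * (Q214.GC.bar e y) i) +
        (q * ‖Q214.GC.bar e y‖) * t) =
        (fun t => ((⟪e, y⟫ • e) i + β * (Q214.GC.bar e y) i) + t) ∘
          (fun t => (q * ‖Q214.GC.bar e y‖) * t) := rfl
    rw [e3, ← Measure.map_map (by fun_prop) (by fun_prop), gaussianReal_map_const_mul,
      gaussianReal_map_const_add]
    congr 1
    · ring
    · ext
      rw [hv]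
      simp
  rw [Measure.pi_map_pi (f := fun i (t : ℝ) =>
    ((⟪e, y⟫ • e) i + β * (Q214.GC.bar e y) i) + (q * ‖Q214.GC.bar e y‖) * t)
    (fun i => by fun_prop)]
  simp_rw [e2]

/-- the projection of the transition law -/
theorem proj_trans (α β : ℝ) (hα : 0 < α) (u : EuclideanSpace ℝ (Fin d)) (x : State n d)
    {φ : EuclideanSpace ℝ (Fin (n + 2)) → ℝ≥0∞} (hφ : Measurable φ) :
    ∫⁻ z, φ (prj u z) ∂(trans α β x) =
      Q214.GC.KK (ee n) β (√(α * (1 - β) ^ 2 / (n + 2))) φ (prj u x) := by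
  obtain ⟨q, hq⟩ : ∃ q, q = √(α * (1 - β) ^ 2 / (n + 2)) := ⟨_, rfl⟩
  rw [← hq]
  have hρ : 0 ≤ α * (1 - β) ^ 2 := by positivity
  have hq2 : q ^ 2 = α * (1 - β) ^ 2 / (n + 2) := by
    rw [hq, Real.sq_sqrt (by positivity)]
  obtain ⟨v, hv⟩ : ∃ v : ℝ≥0, (v : ℝ) = (q * ‖Q214.GC.bar (ee n) (prj u x)‖) ^ 2 :=
    ⟨⟨_, sq_nonneg _⟩, rfl⟩
  have hv2 : (v : ℝ) = (u : Fin d → ℝ) ⬝ᵥ ((α * (1 - β) ^ 2) • cov x) *ᵥ (u : Fin d → ℝ) := by
    rw [Matrix.smul_mulVec, dotProduct_smul, quad, smul_eq_mul, hv, mul_pow, hq2]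
    ring
  have hpm : Measurable (prj u : State n d → _) := by
    unfold prj
    fun_prop
  have h1 : (trans α β x).map (prj u) =
      (stdGaussian (EuclideanSpace ℝ (Fin (n + 2)))).map
        (Q214.GC.TT (ee n) β q (prj u x)) := by
    rw [law_step (prj u x) (ee n) β q hv]
    have e1 : (trans α β x).map (prj u) =
        (trans α β x).map ((WithLp.toLp 2) ∘ (fun (z : State n d) i => ⟪u, z i⟫)) := rfl
    rw [e1, ← Measure.map_map (by fun_prop) (by fun_prop)]
    congr 1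
    unfold trans
    rw [Measure.pi_map_pi (f := fun _ (z : EuclideanSpace ℝ (Fin d)) => ⟪u, z⟫)
      (fun i => by fun_prop)]
    congr 1
    funext i
    rw [mG_map (cov_psd x hρ) u hv2]
    congr 1
    rw [prj_diag, prj_bar, inner_add_right, inner_smul_right, inner_smul_right, inner_sub_right]
    ring
  rw [← lintegral_map hφ hpm, h1, lintegral_map hφ]
  · rfl
  · unfold Q214.GC.TT
    fun_prop

/-- the projected process -/
theorem chain {α β : ℝ} (hα : 0 < α) {Ω : Type*} [MeasurableSpace Ω] {P : Measure Ω}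
    [IsProbabilityMeasure P] {X : ℕ → Ω → State n d} (hX : IsProcess α β P X)
    (h0 : ∀ᵐ ω ∂P, (cov (X 0 ω)).PosDef) {u : EuclideanSpace ℝ (Fin d)} (hu : u ≠ 0) :
    Q214.GC.Chain (ee n) β (√(α * (1 - β) ^ 2 / (n + 2))) P
      (fun t => MeasurableSpace.comap (fun ω (s : Fin (t + 1)) => X s ω) inferInstance)
      (fun t ω => prj u (X t ω)) := by
  have hpm : Measurable (prj u : State n d → _) := by
    unfold prj
    fun_prop
  have hXm := hX.1
  have hpast : ∀ t : ℕ, Measurable (fun ω (s : Fin (t + 1)) => X s ω) := fun t =>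
    measurable_pi_lambda _ fun s => hXm s
  refine ⟨inferInstance, ?_, ?_, ?_, ?_, ?_⟩
  · intro s t hst
    have h1 : ∀ r : Fin (s + 1), Measurable[MeasurableSpace.comap
        (fun ω (s : Fin (t + 1)) => X s ω) inferInstance] (X r) := by
      intro r
      have h2 : X r = (fun p : Fin (t + 1) → State n d => p ⟨r, by omega⟩) ∘
          (fun ω (s : Fin (t + 1)) => X s ω) := rfl
      rw [h2]
      exact (measurable_pi_apply _).comp (comap_measurable _)
    exact (@measurable_pi_lambda _ _ _ (MeasurableSpace.comap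
      (fun ω (s : Fin (t + 1)) => X s ω) inferInstance) _ _ h1).comap_le
  · intro t
    exact (hpast t).comap_le
  · intro t
    have h2 : (fun ω => prj u (X t ω)) = (fun p : Fin (t + 1) → State n d =>
        prj u (p (Fin.last t))) ∘ (fun ω (s : Fin (t + 1)) => X s ω) := rfl
    have h3 : Measurable (fun p : Fin (t + 1) → State n d => prj u (p (Fin.last t))) :=
      hpm.comp (measurable_pi_apply _)
    rw [h2]
    exact h3.comp (comap_measurable _)
  · intro t H hH φ hφ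
    obtain ⟨h, hh, rfl⟩ := hH.exists_eq_measurable_comp
    have hK := Q214.GC.KK_meas (ee n) β (√(α * (1 - β) ^ 2 / (n + 2))) hφ
    have h1 : ∫⁻ ω, (h ∘ fun ω (s : Fin (t + 1)) => X s ω) ω * φ (prj u (X (t + 1) ω)) ∂P =
        ∫⁻ p : (Fin (t + 1) → State n d) × State n d, h p.1 * φ (prj u p.2)
          ∂(P.map fun ω => ((fun s : Fin (t + 1) => X s ω), X (t + 1) ω)) := by
      rw [lintegral_map (by fun_prop) ((hpast t).prodMk (hXm _))]
      rfl
    have h2 : ∫⁻ ω, (h ∘ fun ω (s : Fin (t + 1)) => X s ω) ω *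
        Q214.GC.KK (ee n) β (√(α * (1 - β) ^ 2 / (n + 2))) φ (prj u (X t ω)) ∂P =
        ∫⁻ p : Fin (t + 1) → State n d, h p *
          Q214.GC.KK (ee n) β (√(α * (1 - β) ^ 2 / (n + 2))) φ (prj u (p (Fin.last t)))
          ∂(P.map fun ω (s : Fin (t + 1)) => X s ω) := by
      rw [lintegral_map (by fun_prop) (hpast t)]
      rfl
    rw [h1, h2, ← compProd_map_condDistrib (hXm (t + 1)).aemeasurable,
      Measure.lintegral_compProd (by fun_prop)]
    refine lintegral_congr_ae ?_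
    filter_upwards [hX.2 t] with p hp
    simp only
    rw [lintegral_const_mul _ (by fun_prop), hp, proj_trans α β hα u _ hφ]
  · filter_upwards [h0] with ω hω
    have h1 : 0 < (u : Fin d → ℝ) ⬝ᵥ cov (X 0 ω) *ᵥ (u : Fin d → ℝ) := by
      have h2 := hω.dotProduct_mulVec_pos (x := (u : Fin d → ℝ)) (by
        intro h3
        apply hu
        ext k
        exact congrFun h3 k)
      simpa using h2
    rw [quad] at h1
    by_contra hc
    have h4 : ‖Q214.GC.bar (ee n) (prj u (X 0 ω))‖ = 0 :=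
      le_antisymm (not_lt.1 hc) (norm_nonneg _)
    rw [h4] at h1
    simp at h1

end proof

/-- **Theorem.** Let `N = n + 2 ≥ 2`, `d ≥ 1` with `N ≥ d + 1`, `α > 0` and `β ∈ [0, 1)` with
`λ₁(α, β, N) = 0`. For every Gaussian consensus process `X` whose initial covariance is positive
definite almost surely, and every deterministic `u ≠ 0`, almost surely `|u · X_i(t)| → ∞` for all
`i` and `|u · μ^X(t)| → ∞`. -/
theorem result (n d : ℕ) (_hd : 1 ≤ d) (_hN : d + 1 ≤ n + 2) (α β : ℝ) (hα : 0 < α) (_hβ : 0 ≤ β)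
    (hβ1 : β < 1) (hlam : lam1 α β n = 0) {Ω : Type*} [MeasurableSpace Ω] (P : Measure Ω)
    [IsProbabilityMeasure P] (X : ℕ → Ω → State n d) (hX : IsProcess α β P X)
    (h0 : ∀ᵐ ω ∂P, (cov (X 0 ω)).PosDef) (u : EuclideanSpace ℝ (Fin d)) (hu : u ≠ 0) :
    ∀ᵐ ω ∂P, (∀ i, Tendsto (fun t => |⟪u, X t ω i⟫|) atTop atTop) ∧
      Tendsto (fun t => |⟪u, mean (X t ω)⟫|) atTop atTop := by
  have hn : (0 : ℝ) < (n : ℝ) + 2 := by positivity
  have hβ2 : 0 < 1 - β := by linarith
  have hq : 0 < √(α * (1 - β) ^ 2 / ((n : ℝ) + 2)) := Real.sqrt_pos.2 (by positivity)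
  have hC := chain hα hX h0 hu
  have hfin : finrank ℝ (EuclideanSpace ℝ (Fin (n + 2))) = n + 2 := by simp
  have h1 : ∀ i : Fin (n + 2), ∀ᵐ ω ∂P, Tendsto (fun t => |⟪u, X t ω i⟫|) atTop atTop := by
    intro i
    refine hC.main hfin (norm_ee n) hq hlam (l := fun y => y i) (by fun_prop)
      (r := 1 / √((n : ℝ) + 2)) (by positivity) fun z c => ?_
    simp only [PiLp.add_apply, PiLp.smul_apply, smul_eq_mul, ee]
    ring
  have h2 : ∀ᵐ ω ∂P, Tendsto (fun t => |⟪u, mean (X t ω)⟫|) atTop atTop := by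
    have h3 := hC.main hfin (norm_ee n) hq hlam
      (l := fun y => (1 / √((n : ℝ) + 2)) * ⟪ee n, y⟫) (by fun_prop)
      (r := 1 / √((n : ℝ) + 2)) (by positivity) fun z c => by
        rw [inner_add_right, inner_smul_right, real_inner_self_eq_norm_sq, norm_ee]
        ring
    filter_upwards [h3] with ω hω
    convert hω using 2 with t
    congr 1
    have h4 := prj_diag u (X t ω) 0
    rw [← h4, PiLp.smul_apply, smul_eq_mul]
    simp only [ee]
    ring
  filter_upwards [ae_all_iff.2 h1, h2] with ω h3 h4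
  exact ⟨h3, h4⟩

end Pool.Agent.Results.MP_21b2a2_pr.DirectionalDivergence
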